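import Pool.Agent.H10.FEW.Stmts

/-!
# FEW, row NUM
-/

set_option autoImplicit false

namespace Pool.FEW

theorem fact_le_pow (t : ℕ) (ht : 1 ≤ t) : t.factorial ≤ t ^ (t - 1) := by
  induction t, ht using Nat.le_induction with
  | base => simp
  | succ n hn ih =>
    rw [Nat.factorial_succ, Nat.add_sub_cancel]
    calc (n + 1) * n.factorial ≤ (n + 1) * n ^ (n - 1) := Nat.mul_le_mul_left _ ih
      _ ≤ (n + 1) * (n + 1) ^ (n - 1) :=
        Nat.mul_le_mul_left _ (Nat.pow_le_pow_left (Nat.le_succ n) _)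
      _ = (n + 1) ^ n := by
        rw [← pow_succ', Nat.sub_add_cancel hn]

theorem num_thm : S_NUM := by
  intro ε hε
  refine ⟨max 1 (2 / ε), Real.exp (Real.exp 4), le_max_left _ _, ?_, ?_⟩
  · have h1 := Real.add_one_le_exp (4 : ℝ)
    have h2 := Real.add_one_le_exp (Real.exp 4)
    linarith only [h1, h2]
  intro X P t hX ht hP hPX hPt
  set C1 : ℝ := max 1 (2 / ε) with hC1
  have hC1a : 1 ≤ C1 := le_max_left _ _
  have hC1b : 2 / ε ≤ C1 := le_max_right _ _
  have hX0 : 0 < X := lt_of_lt_of_le (Real.exp_pos _) hX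
  set L := Real.log X with hL
  have hL1 : Real.exp 4 ≤ L := by
    rw [hL, Real.le_log_iff_exp_le hX0]
    exact hX
  have hL0 : 0 < L := lt_of_lt_of_le (Real.exp_pos _) hL1
  have hL5 : 5 ≤ L := by
    have h1 := Real.add_one_le_exp (4 : ℝ)
    linarith only [h1, hL1]
  set l := Real.log L with hl
  have hl4 : 4 ≤ l := by
    rw [hl, Real.le_log_iff_exp_le hL0]
    exact hL1
  have hP0 : (0 : ℝ) < P := by
    have h1 : 0 < L ^ C1 := Real.rpow_pos_of_pos hL0 _
    linarith only [h1, hP]
  have hlogP : C1 / 2 * l ≤ Real.log P := by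
    have h1 : Real.log (L ^ C1) ≤ Real.log (2 * (P : ℝ)) :=
      Real.log_le_log (Real.rpow_pos_of_pos hL0 _) hP
    rw [Real.log_rpow hL0, Real.log_mul two_ne_zero hP0.ne'] at h1
    have h2 : Real.log 2 ≤ 1 := by
      have := Real.log_two_lt_d9
      linarith only [this]
    have h3 : 1 * 4 ≤ C1 * l := mul_le_mul hC1a hl4 (by norm_num) (by linarith only [hC1a])
    linarith only [h1, h2, h3]
  have hlogP2 : 2 ≤ Real.log P := by
    have h3 : 1 * 4 ≤ C1 * l := mul_le_mul hC1a hl4 (by norm_num) (by linarith only [hC1a])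
    linarith only [hlogP, h3]
  have hP4 : 4 ≤ P := by
    have h1 : Real.exp 2 ≤ P := by
      rw [← Real.le_log_iff_exp_le hP0]
      exact hlogP2
    have h2 := Real.add_one_le_exp (2 : ℝ)
    have h3 : (3 : ℝ) ≤ P := by linarith only [h1, h2]
    have h4 : 3 ≤ P := by exact_mod_cast h3
    rcases Nat.lt_or_ge 3 P with h | h
    · exact h
    · exfalso
      have h5 : P = 3 := le_antisymm h h4
      rw [h5] at hlogP2
      have h6 : Real.log ((3 : ℕ) : ℝ) < 2 := by
        rw [Real.log_lt_iff_lt_exp (by norm_num)]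
        have h7 : (2.7182818283 : ℝ) < Real.exp 1 := Real.exp_one_gt_d9
        have h8 : Real.exp 2 = Real.exp 1 * Real.exp 1 := by
          rw [← Real.exp_add]
          norm_num
        rw [h8]
        push_cast
        nlinarith only [h7]
      linarith only [h6, hlogP2]
  have hX1 : 1 ≤ X := by
    have h1 := Real.add_one_le_exp (Real.exp 4)
    have h2 := Real.exp_pos 4
    linarith only [h1, h2, hX]
  -- the time
  have ht1 : ((t - 1 : ℕ) : ℝ) * Real.log P ≤ L := by
    have h1 : Real.log ((P : ℝ) ^ (t - 1)) ≤ L := Real.log_le_log (pow_pos hP0 _) hPt.le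
    rwa [Real.log_pow] at h1
  constructor
  · -- the product
    have h2t : (2 : ℝ) ^ t ≤ X := by
      rcases Nat.lt_or_ge 1 t with h | h
      · have h1 : (2 : ℝ) ^ t ≤ (P : ℝ) ^ (t - 1) := by
          have h3 : 2 ^ t ≤ P ^ (t - 1) := by
            calc 2 ^ t ≤ 2 ^ (2 * (t - 1)) := Nat.pow_le_pow_right (by norm_num) (by omega)
              _ = 4 ^ (t - 1) := by
                rw [pow_mul]
                norm_num
              _ ≤ P ^ (t - 1) := Nat.pow_le_pow_left hP4 _
          exact_mod_cast h3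
        exact h1.trans hPt.le
      · have h1 : t = 1 := le_antisymm h ht
        rw [h1, pow_one]
        have h2 : (4 : ℝ) ≤ P := by exact_mod_cast hP4
        linarith only [h2, hPX]
    have h3 : (2 * (P : ℝ)) ^ t = 2 ^ t * (P * (P : ℝ) ^ (t - 1)) := by
      rw [mul_pow, ← pow_succ', Nat.sub_add_cancel ht]
    rw [h3]
    calc (2 : ℝ) ^ t * (P * (P : ℝ) ^ (t - 1)) ≤ X * (X * X) := by
          refine mul_le_mul h2t (mul_le_mul hPX hPt.le (pow_pos hP0 _).le hX0.le)
            (mul_pos hP0 (pow_pos hP0 _)).le hX0.le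
      _ = X ^ 3 := by ring
  · -- the factorial
    rcases Nat.lt_or_ge 1 t with h | h
    · have h1 : ((t - 1 : ℕ) : ℝ) = (t : ℝ) - 1 := by
        rw [Nat.cast_sub ht, Nat.cast_one]
      have h2 : ((t - 1 : ℕ) : ℝ) * 2 ≤ L := by
        refine le_trans (mul_le_mul_of_nonneg_left hlogP2 (Nat.cast_nonneg _)) ht1
      have h3 : (t : ℝ) ≤ L := by
        rw [h1] at h2
        linarith only [h2, hL5]
      have ht0 : (0 : ℝ) < t := by exact_mod_cast (by omega : 0 < t)
      have h4 : Real.log t ≤ l := Real.log_le_log ht0 h3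
      have h5 : ((t - 1 : ℕ) : ℝ) * (C1 / 2 * l) ≤ L :=
        le_trans (mul_le_mul_of_nonneg_left hlogP (Nat.cast_nonneg _)) ht1
      have h6 : (t.factorial : ℝ) ≤ (t : ℝ) ^ (t - 1) := by exact_mod_cast fact_le_pow t ht
      refine h6.trans ?_
      rw [← Real.log_le_log_iff (pow_pos ht0 _) (Real.rpow_pos_of_pos hX0 _), Real.log_pow,
        Real.log_rpow hX0]
      have hC0 : 0 < C1 := by linarith only [hC1a]
      have h7 : ((t - 1 : ℕ) : ℝ) * l ≤ 2 / C1 * L := by
        rw [div_mul_eq_mul_div, le_div_iff₀ hC0]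
        linarith only [h5]
      have h8 : 2 / C1 ≤ ε := by
        rw [div_le_iff₀ hC0]
        rw [div_le_iff₀ hε] at hC1b
        linarith only [hC1b]
      calc ((t - 1 : ℕ) : ℝ) * Real.log t ≤ ((t - 1 : ℕ) : ℝ) * l :=
            mul_le_mul_of_nonneg_left h4 (Nat.cast_nonneg _)
        _ ≤ 2 / C1 * L := h7
        _ ≤ ε * L := mul_le_mul_of_nonneg_right h8 hL0.le
    · have h1 : t = 1 := le_antisymm h ht
      rw [h1, Nat.factorial_one, Nat.cast_one]
      exact Real.one_le_rpow hX1 hε.le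

end Pool.FEW
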