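import Pool.Agent.H10.FEW.Stmts

/-!
# FEW, row REP: the primes of a triple as a vector
-/

set_option autoImplicit false

namespace Pool.FEW

open Finset Pool.Agent.H98.ABCR Pool.SHA

/-- an enumeration of a small finite set of numbers, padded by `1` -/
theorem enum (k : ℕ) (S : Finset ℕ) (hS : S.card ≤ k) :
    ∃ (f : S ↪ Fin k) (p : Fin k → ℕ), (∀ q : S, p (f q) = q) ∧
      ∀ j, p j = 1 ∨ ∃ q : S, f q = j := by
  classical
  obtain ⟨f⟩ : Nonempty (S ↪ Fin k) := Function.Embedding.nonempty_of_card_le (by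
    rw [Fintype.card_coe, Fintype.card_fin]
    exact hS)
  refine ⟨f, fun j => if h : ∃ q : S, f q = j then (h.choose : ℕ) else 1, fun q => ?_, fun j => ?_⟩
  · have h : ∃ q' : S, f q' = f q := ⟨q, rfl⟩
    simp only [dif_pos h]
    have h1 := h.choose_spec
    rw [f.injective h1]
  · by_cases h : ∃ q : S, f q = j
    · exact Or.inr h
    · left
      simp only [dif_neg h]

theorem prod_enum (k : ℕ) (S : Finset ℕ) (f : S ↪ Fin k) (p : Fin k → ℕ)
    (h1 : ∀ q : S, p (f q) = q) (h2 : ∀ j, p j = 1 ∨ ∃ q : S, f q = j) (G : ℕ → ℕ) (hG : G 1 = 1)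
    (Q : ℕ → Prop) [DecidablePred Q] :
    ∏ j ∈ univ.filter (fun j => Q (p j)), G (p j) = ∏ q ∈ S.filter Q, G q := by
  apply prod_bij_ne_one (fun j _ _ => p j)
  · intro j hj hne
    rw [mem_filter] at hj ⊢
    rcases h2 j with h | ⟨q, rfl⟩
    · rw [h] at hne
      exact absurd hG hne
    · refine ⟨?_, hj.2⟩
      rw [h1 q]
      exact q.2
  · intro j _ hne j' _ hne' heq
    rcases h2 j with h | ⟨q, rfl⟩
    · rw [h] at hne
      exact absurd hG hne
    · rcases h2 j' with h | ⟨q', rfl⟩
      · rw [h] at hne'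
        exact absurd hG hne'
      · rw [h1, h1] at heq
        rw [Subtype.ext heq]
  · intro q hq _
    rw [mem_filter] at hq
    refine ⟨f ⟨q, hq.1⟩, ?_, ?_, h1 _⟩
    · rw [mem_filter, h1]
      exact ⟨mem_univ _, hq.2⟩
    · rw [h1]
      assumption
  · intro j _ _
    rfl

theorem coord_ne (v : ℕ × ℕ) (hv : IsTri v) (i : Fin 3) : coord v i ≠ 0 := by
  obtain ⟨h1, h2, _⟩ := hv
  fin_cases i
  · exact h1.ne'
  · exact h2.ne'
  · show v.1 + v.2 ≠ 0
    omega

theorem coord_cop (v : ℕ × ℕ) (hv : IsTri v) (i j : Fin 3) (hij : i ≠ j) :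
    (coord v i).Coprime (coord v j) := by
  obtain ⟨_, _, h⟩ := hv
  have h02 : v.1.Coprime (v.1 + v.2) := by
    rw [Nat.coprime_self_add_right]
    exact h
  have h12 : v.2.Coprime (v.1 + v.2) := by
    rw [Nat.coprime_add_self_right]
    exact h.symm
  fin_cases i <;> fin_cases j
  · exact absurd rfl hij
  · exact h
  · exact h02
  · exact h.symm
  · exact absurd rfl hij
  · exact h12
  · exact h02.symm
  · exact h12.symm
  · exact absurd rfl hij

theorem nn_prod (v : ℕ × ℕ) : nn v = ∏ i, coord v i := by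
  rw [Fin.prod_univ_three]
  rfl

theorem rep_thm : S_REP := by
  classical
  intro k v hv hk
  set S := (nn v).primeFactors with hS
  obtain ⟨f, p, h1, h2⟩ := enum k S hk
  have hn0 : nn v ≠ 0 := by
    rw [nn_prod]
    exact prod_ne_zero_iff.mpr fun i _ => coord_ne v hv i
  have hex : ∀ q ∈ S, ∃ i : Fin 3, q ∣ coord v i := by
    intro q hq
    have hq' := Nat.mem_primeFactors.mp hq
    have h3 : q ∣ ∏ i, coord v i := by
      rw [← nn_prod]
      exact hq'.2.1
    obtain ⟨i, _, hi⟩ := (hq'.1.prime.dvd_finsetProd_iff _).mp h3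
    exact ⟨i, hi⟩
  let c : ℕ → Fin 3 := fun q => if h : ∃ i : Fin 3, q ∣ coord v i then h.choose else 0
  have hc : ∀ q ∈ S, q ∣ coord v (c q) := by
    intro q hq
    have h := hex q hq
    show q ∣ coord v (if h : ∃ i : Fin 3, q ∣ coord v i then h.choose else 0)
    rw [dif_pos h]
    exact h.choose_spec
  have hcu : ∀ q, q.Prime → ∀ i, q ∣ coord v i → q ∈ S → c q = i := by
    intro q hq i hi hqS
    by_contra hne
    have h3 := Nat.dvd_gcd (hc q hqS) hi
    rw [Nat.Coprime.gcd_eq_one (coord_cop v hv _ _ hne)] at h3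
    exact hq.one_lt.ne' (Nat.dvd_one.mp h3)
  have hA : ∀ i, (coord v i).primeFactors = S.filter (fun q => c q = i) := by
    intro i
    ext q
    rw [mem_filter]
    constructor
    · intro hq
      have hq' := Nat.mem_primeFactors.mp hq
      have hqS : q ∈ S := by
        rw [hS, Nat.mem_primeFactors]
        refine ⟨hq'.1, ?_, hn0⟩
        rw [nn_prod]
        exact hq'.2.1.trans (dvd_prod_of_mem _ (mem_univ i))
      exact ⟨hqS, hcu q hq'.1 i hq'.2.1 hqS⟩
    · rintro ⟨hqS, rfl⟩
      rw [Nat.mem_primeFactors]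
      exact ⟨(Nat.mem_primeFactors.mp hqS).1, hc q hqS, coord_ne v hv _⟩
  have hB : ∀ i, ∀ q ∈ (coord v i).primeFactors,
      (nn v).factorization q = (coord v i).factorization q := by
    intro i q hq
    rw [nn_prod, Nat.factorization_prod (fun i _ => coord_ne v hv i), Finsupp.finsetSum_apply]
    rw [sum_eq_single i]
    · intro j _ hji
      apply Nat.factorization_eq_zero_of_not_dvd
      intro hd
      have hq' := Nat.mem_primeFactors.mp hq
      have h3 := Nat.dvd_gcd hd hq'.2.1
      rw [coord_cop v hv j i hji] at h3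
      exact hq'.1.one_lt.ne' (Nat.dvd_one.mp h3)
    · intro h3
      exact absurd (mem_univ i) h3
  let G : ℕ → ℕ := fun m => m ^ (if m = 1 then 0 else (nn v).factorization m)
  refine ⟨p, fun j => if p j = 1 then 0 else (nn v).factorization (p j), fun j => c (p j),
    fun i => ?_, fun i => ?_, ?_, fun j hj => ?_⟩
  · have h3 := prod_enum k S f p h1 h2 G (by simp [G]) (fun q => c q = i)
    show coord v i = ∏ j ∈ univ.filter (fun j => c (p j) = i), G (p j)
    rw [h3, ← hA i]
    refine (Nat.prod_primeFactors_pow_factorization (coord_ne v hv i)).trans ?_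
    refine prod_congr rfl fun q hq => ?_
    have h4 := (Nat.mem_primeFactors.mp hq).1
    show _ = q ^ (if q = 1 then 0 else (nn v).factorization q)
    rw [if_neg h4.one_lt.ne', hB i q hq]
  · have h3 := prod_enum k S f p h1 h2 id rfl (fun q => c q = i)
    show rad (coord v i) = ∏ j ∈ univ.filter (fun j => c (p j) = i), id (p j)
    rw [h3, ← hA i]
    rfl
  · have h3 := prod_enum k S f p h1 h2 id rfl (fun _ => True)
    simp only [filter_true] at h3
    exact h3.symm
  · rcases h2 j with h | ⟨q, rfl⟩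
    · exact absurd h hj
    · refine ⟨?_, if_neg hj⟩
      rw [h1 q]
      exact q.2

end Pool.FEW
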